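import Pool.Agent.Lib.MP_67d80e_pr_fin.Final

set_option autoImplicit false

open Filter MeasureTheory
open Pool.Agent.Lib.MP_67d80e_pr

namespace Pool.Agent.Results.MP_67d80e_pr.NotDecorrelated

/-- In every dimension `d ≥ 1` there is a stationary distribution of recentred ballistic
deposition, with integrable heights and with a gradient field whose law is invariant under the
translations and the symmetries of the lattice, under which the gradients at two sites do not
become independent when the distance of the sites tends to infinity. -/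
theorem result (d : ℕ) (hd : 1 ≤ d) :
    ∃ μ : Measure (Conf d), IsStationary μ ∧
      (∀ x, Integrable (fun g : Conf d => (g x : ℝ)) μ) ∧
      (∀ y, μ.map (fun g x => g (x + y) - g y) = μ) ∧
      (∀ π ε, μ.map (fun g x => g (signedPerm π ε x)) = μ) ∧
      ∃ φ ψ : (Fin d → ℤ) → ℝ, IsBdd φ ∧ IsBdd ψ ∧ ∃ ε : ℝ, 0 < ε ∧ ∃ x y : ℕ → Site d,
        Tendsto (fun n => ‖x n - y n‖) atTop atTop ∧
          ∀ n, ε ≤ |gradCov μ φ ψ (x n) (y n)| :=
  (Pool.Agent.Lib.MP_67d80e_pr_fin.all_dims hd).2

end Pool.Agent.Results.MP_67d80e_pr.NotDecorrelated
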