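import Pool.Agent.Lib.MP_67d80e_pr_fin.Final

set_option autoImplicit false

open Filter MeasureTheory
open Pool.Agent.Lib.MP_67d80e_pr

namespace Pool.Agent.Results.MP_67d80e_pr.Tilted

/-- In every dimension `d ≥ 1` and for every coordinate direction there is a stationary
distribution of recentred ballistic deposition, with integrable heights and with a gradient field
whose law is invariant under translations, whose mean gradient is a positive multiple of the unit
vector in this direction. In particular the stationary distribution is not unique. -/
theorem result (d : ℕ) (hd : 1 ≤ d) (i : Fin d) :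
    ∃ μ : Measure (Conf d), IsStationary μ ∧
      (∀ x, Integrable (fun g : Conf d => (g x : ℝ)) μ) ∧
      (∀ y, μ.map (fun g x => g (x + y) - g y) = μ) ∧
      0 < ∫ g, (g (e i) : ℝ) ∂μ ∧ ∀ j, j ≠ i → ∫ g, (g (e j) : ℝ) ∂μ = 0 :=
  (Pool.Agent.Lib.MP_67d80e_pr_fin.all_dims hd).1 i

end Pool.Agent.Results.MP_67d80e_pr.Tilted
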